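import Pool.Agent.Odp2.Alg.CanonAux

open scoped ContDiff Topology ENNReal NNReal WithZero nonZeroDivisors
open Set MeasureTheory Filter MvPolynomial Pool.Agent.ODP

namespace Pool.Agent.Odp2

section

variable {n d : ℕ} {B : Type} [CommRing B] [Algebra ℂ B] (G : Germ n d B)
  [Algebra (MvPolynomial (Fin n) ℂ) B]

omit [Algebra (MvPolynomial (Fin n) ℂ) B] in
theorem canon_cf_add (b c : B) :
    G.cf (b + c) = G.cf b + G.cf c := by
  symm
  apply G.cf_unique
  conv_lhs => rw [G.cf_spec b, G.cf_spec c]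
  rw [← Finset.sum_add_distrib]
  refine Finset.sum_congr rfl fun i _ => ?_
  rw [Pi.add_apply, map_add, add_mul]

theorem canon_cf_smul (hm : ∀ p, algebraMap (MvPolynomial (Fin n) ℂ) B p = aeval G.y p)
    (p : MvPolynomial (Fin n) ℂ) (b : B) : G.cf (p • b) = p • G.cf b := by
  symm
  apply G.cf_unique
  rw [Algebra.smul_def, hm]
  conv_lhs => rw [G.cf_spec b]
  rw [Finset.mul_sum]
  refine Finset.sum_congr rfl fun i _ => ?_
  rw [Pi.smul_apply, smul_eq_mul, map_mul, mul_assoc]

/-- `B` with the basis `e`. -/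
noncomputable def canonBasis (hm : ∀ p, algebraMap (MvPolynomial (Fin n) ℂ) B p = aeval G.y p) :
    Module.Basis (Fin d) (MvPolynomial (Fin n) ℂ) B :=
  Module.Basis.ofEquivFun
    { toFun := G.cf
      map_add' := canon_cf_add G
      map_smul' := canon_cf_smul G hm
      invFun := fun c => ∑ i, aeval G.y (c i) * G.e i
      left_inv := fun b => (G.cf_spec b).symm
      right_inv := fun c => (G.cf_unique _ c rfl).symm }

theorem canonBasis_repr (hm : ∀ p, algebraMap (MvPolynomial (Fin n) ℂ) B p = aeval G.y p) (b : B)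
    (i : Fin d) : (canonBasis G hm).repr b i = G.cf b i := by
  rw [canonBasis, Module.Basis.ofEquivFun_repr_apply]
  rfl

theorem canonBasis_apply (hm : ∀ p, algebraMap (MvPolynomial (Fin n) ℂ) B p = aeval G.y p)
    (i : Fin d) : canonBasis G hm i = G.e i := by
  rw [canonBasis, Module.Basis.coe_ofEquivFun]
  change ∑ j, aeval G.y ((Pi.single i (1 : MvPolynomial (Fin n) ℂ) : Fin d → _) j) * G.e j = G.e i
  rw [Finset.sum_eq_single i]
  · rw [Pi.single_eq_same, map_one, one_mul]
  · intro j _ hj
    rw [Pi.single_eq_of_ne hj, map_zero, zero_mul]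
  · intro hi
    exact absurd (Finset.mem_univ i) hi

theorem canon_trace_du (hm : ∀ p, algebraMap (MvPolynomial (Fin n) ℂ) B p = aeval G.y p)
    (i : Fin d) (b : B) :
    Algebra.trace (MvPolynomial (Fin n) ℂ) B (G.du i * b) = G.D * G.cf b i := by
  have h1 : ∀ j, Algebra.trace (MvPolynomial (Fin n) ℂ) B (G.du i * G.e j) =
      if i = j then G.D else 0 := by
    intro j
    rw [Algebra.trace_eq_matrix_trace (canonBasis G hm), Matrix.trace, ← G.du_tr i j]
    refine Finset.sum_congr rfl fun l _ => ?_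
    rw [Matrix.diag_apply, Algebra.leftMulMatrix_eq_repr_mul, canonBasis_apply, canonBasis_repr]
  have h2 : b = ∑ j, G.cf b j • G.e j := by
    conv_lhs => rw [G.cf_spec b]
    refine Finset.sum_congr rfl fun j _ => ?_
    rw [Algebra.smul_def, hm]
  conv_lhs => rw [h2, Finset.mul_sum, map_sum]
  calc ∑ j, Algebra.trace (MvPolynomial (Fin n) ℂ) B (G.du i * G.cf b j • G.e j)
      = ∑ j, G.cf b j * (if i = j then G.D else 0) := by
        refine Finset.sum_congr rfl fun j _ => ?_
        rw [mul_smul_comm, map_smul, smul_eq_mul, h1]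
    _ = _ := by
        rw [Finset.sum_eq_single i]
        · rw [if_pos rfl, mul_comm]
        · intro j _ hj
          rw [if_neg (Ne.symm hj), mul_zero]
        · intro hi
          exact absurd (Finset.mem_univ i) hi

end

/-- `(du_i / D)^r h` is regular at `x`. -/
theorem Germ.canon {n d : ℕ} {B : Type} [CommRing B] [IsDomain B] [IsIntegrallyClosed B]
    [Algebra ℂ B] {K : Type} [Field K] [Algebra B K] [IsFractionRing B K] [Algebra ℂ K]
    [IsScalarTower ℂ B K] (G : Germ n d B) (x : Pt B) (r : ℕ) (h : B)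
    (hK : IsRCanonicalAt ℂ (RingHom.ker x) (fun i => algebraMap B K (G.y i)) r
      (algebraMap B K h)) (i : Fin d) :
    ∃ t b : B, x t ≠ 0 ∧ t * G.du i ^ r * h = aeval G.y G.D ^ r * b := by
  let : Algebra (MvPolynomial (Fin n) ℂ) B :=
    (MvPolynomial.aeval G.y : MvPolynomial (Fin n) ℂ →ₐ[ℂ] B).toRingHom.toAlgebra
  have hm : ∀ p, algebraMap (MvPolynomial (Fin n) ℂ) B p = aeval G.y p := fun _ => rfl
  have hfree : Module.Free (MvPolynomial (Fin n) ℂ) B := Module.Free.of_basis (canonBasis G hm)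
  have hfin : Module.Finite (MvPolynomial (Fin n) ℂ) B := Module.Finite.of_basis (canonBasis G hm)
  have htow : IsScalarTower ℂ (MvPolynomial (Fin n) ℂ) B :=
    IsScalarTower.of_algebraMap_eq fun c => ((MvPolynomial.aeval G.y).commutes c).symm
  let F := FractionRing (MvPolynomial (Fin n) ℂ)
  let : Algebra (MvPolynomial (Fin n) ℂ) K :=
    ((algebraMap B K).comp (algebraMap (MvPolynomial (Fin n) ℂ) B)).toAlgebra
  have hPBK : IsScalarTower (MvPolynomial (Fin n) ℂ) B K := IsScalarTower.of_algebraMap_eq' rfl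
  have hnt : Nontrivial B := inferInstance
  have hinj : FaithfulSMul (MvPolynomial (Fin n) ℂ) K := by
    rw [faithfulSMul_iff_algebraMap_injective]
    exact (IsFractionRing.injective B K).comp
      (FaithfulSMul.algebraMap_injective (MvPolynomial (Fin n) ℂ) B)
  let : Algebra F K := FractionRing.liftAlgebra (MvPolynomial (Fin n) ℂ) K
  have hPFK : IsScalarTower (MvPolynomial (Fin n) ℂ) F K :=
    FractionRing.isScalarTower_liftAlgebra _ _
  have hloc : IsLocalization (Algebra.algebraMapSubmonoid B (MvPolynomial (Fin n) ℂ)⁰) K :=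
    inferInstance
  have hfin : FiniteDimensional F K :=
    Module.Finite.of_isLocalization (MvPolynomial (Fin n) ℂ) B (MvPolynomial (Fin n) ℂ)⁰
  have hkFK : IsScalarTower ℂ F K := by
    refine IsScalarTower.of_algebraMap_eq fun c => ?_
    rw [IsScalarTower.algebraMap_apply ℂ (MvPolynomial (Fin n) ℂ) F,
      ← IsScalarTower.algebraMap_apply (MvPolynomial (Fin n) ℂ) F K,
      IsScalarTower.algebraMap_apply (MvPolynomial (Fin n) ℂ) B K,
      ← IsScalarTower.algebraMap_apply ℂ (MvPolynomial (Fin n) ℂ) B,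
      ← IsScalarTower.algebraMap_apply ℂ B K]
  have hX : ∀ i, algebraMap (MvPolynomial (Fin n) ℂ) B (X i) = G.y i := fun i =>
    MvPolynomial.aeval_X G.y i
  have hyK : (fun i => algebraMap B K (G.y i)) =
      fun i => algebraMap (MvPolynomial (Fin n) ℂ) K (X i) := by
    funext i
    rw [← hX i, ← IsScalarTower.algebraMap_apply]
  rw [hyK] at hK
  have hD : algebraMap (MvPolynomial (Fin n) ℂ) K G.D ≠ 0 := by
    intro h0
    exact G.D_ne (FaithfulSMul.algebraMap_injective (MvPolynomial (Fin n) ℂ) K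
      (by rw [h0, map_zero]))
  obtain ⟨b₁, hb₁, b₂, hb⟩ := canon_trace_pow (F := F) (RingHom.ker x) r (algebraMap B K h) hK
    (algebraMap B K (G.du i) / algebraMap (MvPolynomial (Fin n) ℂ) K G.D) (fun b => by
      refine ⟨G.cf b i, ?_⟩
      have h1 := Algebra.trace_localization (MvPolynomial (Fin n) ℂ)
        (MvPolynomial (Fin n) ℂ)⁰ (Rₘ := F) (Sₘ := K) (G.du i * b)
      rw [canon_trace_du G hm] at h1
      have h2 : algebraMap (MvPolynomial (Fin n) ℂ) F G.D ≠ 0 := by
        intro h0
        exact G.D_ne (IsFractionRing.injective (MvPolynomial (Fin n) ℂ) F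
          (by rw [h0, map_zero]))
      have h3 : algebraMap B K (G.du i) / algebraMap (MvPolynomial (Fin n) ℂ) K G.D *
          algebraMap B K b = (algebraMap (MvPolynomial (Fin n) ℂ) F G.D)⁻¹ •
            algebraMap B K (G.du i * b) := by
        rw [Algebra.smul_def, map_inv₀, ← IsScalarTower.algebraMap_apply, map_mul]
        ring
      rw [h3, map_smul, h1, map_mul, smul_eq_mul, inv_mul_cancel_left₀ h2])
  refine ⟨b₁, b₂, hb₁, ?_⟩
  apply IsFractionRing.injective B K
  rw [map_mul, map_mul, map_pow, map_mul, map_pow, ← hb, ← hm,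
    ← IsScalarTower.algebraMap_apply, div_pow]
  field_simp

end Pool.Agent.Odp2
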