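import Pool.Agent.Odp2.Defs
import Pool.Agent.ODP.Codim1

/-!
# The inverse different and the `r`-canonical generator
-/

open scoped WithZero
open IsDedekindDomain MvPolynomial Pool.Agent.ODP

namespace Pool.Agent.Odp2

set_option linter.unusedSectionVars false

variable {k : Type*} [Field k] [CharZero k] {n : ℕ} {B F K : Type*}
  [CommRing B] [IsDomain B] [IsIntegrallyClosed B]
  [Algebra (MvPolynomial (Fin n) k) B] [Module.Finite (MvPolynomial (Fin n) k) B]
  [Module.Free (MvPolynomial (Fin n) k) B]
  [Field F] [Algebra (MvPolynomial (Fin n) k) F] [IsFractionRing (MvPolynomial (Fin n) k) F]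
  [Algebra k F] [IsScalarTower k (MvPolynomial (Fin n) k) F]
  [Field K] [Algebra B K] [IsFractionRing B K] [Algebra F K] [FiniteDimensional F K]
  [Algebra (MvPolynomial (Fin n) k) K] [IsScalarTower (MvPolynomial (Fin n) k) F K]
  [IsScalarTower (MvPolynomial (Fin n) k) B K]
  [Algebra k K] [IsScalarTower k F K]

/-- If `Tr (z b)` is a polynomial for all `b`, then `z ^ r h` is regular at `x`. -/
theorem canon_trace_pow (x : Ideal B) [x.IsPrime] (r : ℕ) (h : K)
    (hh : IsRCanonicalAt k x (fun i => algebraMap (MvPolynomial (Fin n) k) K (X i)) r h) (z : K)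
    (hz : ∀ b : B, ∃ p : MvPolynomial (Fin n) k,
      algebraMap (MvPolynomial (Fin n) k) F p = Algebra.trace F K (z * algebraMap B K b)) :
    ∃ b₁ : B, b₁ ∉ x ∧ ∃ b₂ : B, algebraMap B K b₁ * z ^ r * h = algebraMap B K b₂ := by
  have hpl := fun (p : MvPolynomial (Fin n) k) (hp : Prime p) =>
    exists_places (B := B) (F := F) (K := K) p hp
  choose! S hfin h1 h2 h3 h4 using hpl
  obtain ⟨b₁, hb₁, hden⟩ := exists_den F (x := x) inferInstance S hfin
    (fun p hp v hv b => (h1 p hp v hv).1.nonneg b) (fun p hp v hv => (h1 p hp v hv).2.2.1)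
    (z ^ r * h)
  have key : ∃ b : B, algebraMap B K b = algebraMap B K b₁ * z ^ r * h := by
    refine mem_B_of_local F _ fun p hp hrep => h2 p hp _ fun v hv => ?_
    obtain ⟨k1, k2, k3, k4, k5⟩ := h1 p hp v hv
    rw [mul_assoc]
    by_cases hc : CentreIn x v
    · have h0 : v (algebraMap _ K p) ≠ 0 := by
        rw [Valuation.ne_zero_iff, IsScalarTower.algebraMap_apply _ F K]
        intro h
        exact hp.ne_zero (IsFractionRing.injective _ F ((algebraMap F K).injective
          (by rw [h, map_zero, map_zero])))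
      obtain ⟨m, hm, hgm⟩ := hh.2 v k1 hc
      have he : v (algebraMap _ K p) = WithZero.exp (-(-WithZero.log (v (algebraMap _ K p)))) := by
        rw [neg_neg, WithZero.exp_log h0]
      have hme := hm.unique (k5 _ he)
      have h5 := h4 p hp z hz v hv
      have hb1 : v (algebraMap B K b₁) ≤ 1 := k1.nonneg b₁
      have h6 : v (z ^ r * h) ≤ 1 := by
        by_cases hz0 : v z = 0
        · rcases Nat.eq_zero_or_pos r with hr | hr
          · subst hr
            rw [pow_zero, one_mul, hgm]
            simp
          · rw [map_mul, map_pow, hz0, zero_pow hr.ne', zero_mul]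
            exact zero_le_one
        · rw [map_mul, he, ← WithZero.exp_log hz0, ← WithZero.exp_add, ← WithZero.exp_zero,
            WithZero.exp_lt_exp] at h5
          rw [map_mul, map_pow, hgm, hme, ← WithZero.exp_log hz0, ← WithZero.exp_nsmul,
            ← WithZero.exp_add, ← WithZero.exp_zero, WithZero.exp_le_exp, nsmul_eq_mul]
          have h7 : WithZero.log (v z) ≤
              -WithZero.log (v (algebraMap (MvPolynomial (Fin n) k) K p)) - 1 := by omega
          have h8 := mul_le_mul_of_nonneg_left h7 (Int.natCast_nonneg r)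
          linarith
      rw [map_mul]
      calc v (algebraMap B K b₁) * v (z ^ r * h) ≤ 1 * 1 := mul_le_mul' hb1 h6
        _ = 1 := one_mul _
    · exact hden p hp hrep v hv hc
  obtain ⟨b₂, hb₂⟩ := key
  exact ⟨b₁, hb₁, b₂, hb₂.symm⟩

end Pool.Agent.Odp2
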