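import Pool.Agent.Odp2.Defs

/-!
# The dual basis and the trace

`e` is a basis of `B` over `ℂ[y_1, …, y_n]` and `Tr (du_i b) = D · (the coefficient of b at e_i)`.
-/

open MvPolynomial
open scoped nonZeroDivisors

namespace Pool.Agent.Odp2

section basis

variable {n d : ℕ} {B : Type} [CommRing B] [Algebra ℂ B]

theorem Germ.cf_add (G : Germ n d B) (a b : B) : G.cf (a + b) = G.cf a + G.cf b := by
  refine (G.cf_unique _ _ ?_).symm
  conv_lhs => rw [G.cf_spec a, G.cf_spec b, ← Finset.sum_add_distrib]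
  refine Finset.sum_congr rfl fun i _ => ?_
  rw [Pi.add_apply, map_add, add_mul]

theorem Germ.cf_mul (G : Germ n d B) (p : MvPolynomial (Fin n) ℂ) (b : B) :
    G.cf (aeval G.y p * b) = fun i => p * G.cf b i := by
  refine (G.cf_unique _ _ ?_).symm
  conv_lhs => rw [G.cf_spec b, Finset.mul_sum]
  refine Finset.sum_congr rfl fun i _ => ?_
  rw [map_mul, mul_assoc]

theorem Germ.cf_sum (G : Germ n d B) (c : Fin d → MvPolynomial (Fin n) ℂ) :
    G.cf (∑ i, aeval G.y (c i) * G.e i) = c := (G.cf_unique _ _ rfl).symm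

variable [Algebra (MvPolynomial (Fin n) ℂ) B]

/-- `e` is a basis of `B` over the polynomial ring. -/
noncomputable def Germ.bas (G : Germ n d B)
    (hA : ∀ p, algebraMap (MvPolynomial (Fin n) ℂ) B p = aeval G.y p) :
    Module.Basis (Fin d) (MvPolynomial (Fin n) ℂ) B :=
  Module.Basis.ofEquivFun
    { toFun := G.cf
      invFun := fun c => ∑ i, aeval G.y (c i) * G.e i
      map_add' := G.cf_add
      map_smul' := fun p b => by
        rw [Algebra.smul_def, hA, G.cf_mul]
        rfl
      left_inv := fun b => (G.cf_spec b).symm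
      right_inv := fun c => G.cf_sum c }

theorem Germ.bas_repr (G : Germ n d B)
    (hA : ∀ p, algebraMap (MvPolynomial (Fin n) ℂ) B p = aeval G.y p) (b : B) (i : Fin d) :
    (G.bas hA).repr b i = G.cf b i := rfl

theorem Germ.bas_apply (G : Germ n d B)
    (hA : ∀ p, algebraMap (MvPolynomial (Fin n) ℂ) B p = aeval G.y p) (i : Fin d) :
    G.bas hA i = G.e i := by
  rw [Germ.bas, Module.Basis.coe_ofEquivFun]
  change ∑ j, aeval G.y ((Pi.single i 1 : Fin d → MvPolynomial (Fin n) ℂ) j) * G.e j = G.e i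
  rw [Finset.sum_eq_single i (fun j _ hj => by rw [Pi.single_eq_of_ne hj, map_zero, zero_mul])
    (fun h => absurd (Finset.mem_univ i) h), Pi.single_eq_same, map_one, one_mul]

theorem Germ.free (G : Germ n d B)
    (hA : ∀ p, algebraMap (MvPolynomial (Fin n) ℂ) B p = aeval G.y p) :
    Module.Free (MvPolynomial (Fin n) ℂ) B := Module.Free.of_basis (G.bas hA)

theorem Germ.finite (G : Germ n d B)
    (hA : ∀ p, algebraMap (MvPolynomial (Fin n) ℂ) B p = aeval G.y p) :
    Module.Finite (MvPolynomial (Fin n) ℂ) B := Module.Finite.of_basis (G.bas hA)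

/-- The trace of `B` over the polynomial ring. -/
theorem Germ.trace_eq (G : Germ n d B)
    (hA : ∀ p, algebraMap (MvPolynomial (Fin n) ℂ) B p = aeval G.y p) (b : B) :
    Algebra.trace (MvPolynomial (Fin n) ℂ) B b = ∑ k, G.cf (b * G.e k) k := by
  rw [Algebra.trace_eq_matrix_trace (G.bas hA), Matrix.trace]
  refine Finset.sum_congr rfl fun k _ => ?_
  rw [Matrix.diag_apply, Algebra.leftMulMatrix_eq_repr_mul, Germ.bas_repr, Germ.bas_apply]

/-- `Tr (du_i b) = D b_i`. -/
theorem Germ.trace_du (G : Germ n d B)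
    (hA : ∀ p, algebraMap (MvPolynomial (Fin n) ℂ) B p = aeval G.y p) (i : Fin d) (b : B) :
    Algebra.trace (MvPolynomial (Fin n) ℂ) B (G.du i * b) = G.D * G.cf b i := by
  have h1 : G.du i * b = ∑ j, G.cf b j • (G.du i * G.e j) := by
    conv_lhs => rw [G.cf_spec b, Finset.mul_sum]
    refine Finset.sum_congr rfl fun j _ => ?_
    rw [Algebra.smul_def, hA]
    ring
  have h2 : ∀ j, Algebra.trace (MvPolynomial (Fin n) ℂ) B (G.cf b j • (G.du i * G.e j)) =
      G.cf b j * if i = j then G.D else 0 := fun j => by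
    rw [map_smul, G.trace_eq hA, G.du_tr, smul_eq_mul]
  rw [h1, map_sum, Finset.sum_congr rfl fun j _ => h2 j,
    Finset.sum_eq_single i (fun j _ hj => by rw [if_neg (Ne.symm hj), mul_zero])
    (fun h => absurd (Finset.mem_univ i) h), if_pos rfl, mul_comm]

end basis

section fraction

variable {n d : ℕ} {B F K : Type} [CommRing B] [IsDomain B] [Algebra ℂ B]
  [Algebra (MvPolynomial (Fin n) ℂ) B] [Module.Finite (MvPolynomial (Fin n) ℂ) B]
  [Module.Free (MvPolynomial (Fin n) ℂ) B]
  [Field F] [Algebra (MvPolynomial (Fin n) ℂ) F] [IsFractionRing (MvPolynomial (Fin n) ℂ) F]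
  [Field K] [Algebra B K] [IsFractionRing B K] [Algebra F K]
  [Algebra (MvPolynomial (Fin n) ℂ) K] [IsScalarTower (MvPolynomial (Fin n) ℂ) F K]
  [IsScalarTower (MvPolynomial (Fin n) ℂ) B K]

omit [Algebra ℂ B] in
theorem trace_frac (b : B) :
    Algebra.trace F K (algebraMap B K b) =
      algebraMap (MvPolynomial (Fin n) ℂ) F (Algebra.trace (MvPolynomial (Fin n) ℂ) B b) := by
  have hinj : Function.Injective (algebraMap (MvPolynomial (Fin n) ℂ) K) := by
    rw [IsScalarTower.algebraMap_eq (MvPolynomial (Fin n) ℂ) F K]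
    exact (algebraMap F K).injective.comp (IsFractionRing.injective _ _)
  have hinj' : Function.Injective (algebraMap (MvPolynomial (Fin n) ℂ) B) := by
    rw [IsScalarTower.algebraMap_eq (MvPolynomial (Fin n) ℂ) B K] at hinj
    exact Function.Injective.of_comp hinj
  have h2 : FaithfulSMul (MvPolynomial (Fin n) ℂ) B :=
    (faithfulSMul_iff_algebraMap_injective _ _).mpr hinj'
  have hloc : IsLocalization (Algebra.algebraMapSubmonoid B (MvPolynomial (Fin n) ℂ)⁰) K := by
    have h3 : Algebra.IsAlgebraic (MvPolynomial (Fin n) ℂ) B := inferInstance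
    infer_instance
  exact Algebra.trace_localization (MvPolynomial (Fin n) ℂ) (MvPolynomial (Fin n) ℂ)⁰ b

/-- `Tr ((du_i / D) b) = b_i`: the elements `du_i / D` are the dual basis. -/
theorem Germ.canon_trace (G : Germ n d B)
    (hA : ∀ p, algebraMap (MvPolynomial (Fin n) ℂ) B p = aeval G.y p) (i : Fin d) (b : B) :
    Algebra.trace F K (algebraMap B K (G.du i) / algebraMap (MvPolynomial (Fin n) ℂ) K G.D *
      algebraMap B K b) = algebraMap (MvPolynomial (Fin n) ℂ) F (G.cf b i) := by
  have hD : algebraMap (MvPolynomial (Fin n) ℂ) F G.D ≠ 0 := by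
    rw [Ne, map_eq_zero_iff _ (IsFractionRing.injective (MvPolynomial (Fin n) ℂ) F)]
    exact G.D_ne
  have h1 : algebraMap B K (G.du i) / algebraMap (MvPolynomial (Fin n) ℂ) K G.D *
      algebraMap B K b = (algebraMap (MvPolynomial (Fin n) ℂ) F G.D)⁻¹ •
        algebraMap B K (G.du i * b) := by
    rw [Algebra.smul_def, map_inv₀, ← IsScalarTower.algebraMap_apply, map_mul]
    ring
  rw [h1, map_smul, trace_frac (n := n) (F := F), G.trace_du hA, map_mul, smul_eq_mul, inv_mul_cancel_left₀ hD]

end fraction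

end Pool.Agent.Odp2
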