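import Pool.Agent.Odp2.Alg.Sep

open scoped ContDiff Topology ENNReal NNReal WithZero
open Set MeasureTheory Filter MvPolynomial Pool.Agent.ODP

namespace Pool.Agent.Odp2

section

variable {n d : ℕ} {B : Type} [CommRing B] [Algebra ℂ B] (G : Germ n d B)

theorem Germ.count_cf_add (b c : B) : G.cf (b + c) = G.cf b + G.cf c := by
  symm
  apply G.cf_unique
  simp only [Pi.add_apply, map_add, add_mul, Finset.sum_add_distrib]
  rw [← G.cf_spec b, ← G.cf_spec c]

theorem Germ.count_cf_aeval (p : MvPolynomial (Fin n) ℂ) (b : B) :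
    G.cf (aeval G.y p * b) = fun i => p * G.cf b i := by
  symm
  apply G.cf_unique
  simp only [map_mul, mul_assoc]
  rw [← Finset.mul_sum, ← G.cf_spec b]

theorem Germ.count_cf_e (i : Fin d) : G.cf (G.e i) = fun j => if j = i then 1 else 0 := by
  classical
  symm
  apply G.cf_unique
  simp

/-- The `i`-th coordinate at `0`. -/
noncomputable def Germ.countC (i : Fin d) : B →ₗ[ℂ] ℂ where
  toFun b := eval 0 (G.cf b i)
  map_add' b c := by rw [G.count_cf_add, Pi.add_apply, map_add]
  map_smul' a b := by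
    have h : a • b = aeval G.y (C a) * b := by rw [aeval_C, Algebra.smul_def]
    rw [h, G.count_cf_aeval, map_mul, eval_C, RingHom.id_apply, smul_eq_mul]

theorem Germ.countC_apply (i : Fin d) (b : B) : G.countC i b = eval 0 (G.cf b i) := rfl

theorem Germ.countC_zero (i : Fin d) {b : B} (hb : b ∈ Ideal.span (Set.range G.y)) :
    G.countC i b = 0 := by
  have key : ∀ a : B, G.countC i (a * b) = 0 := by
    induction hb using Submodule.span_induction with
    | mem b hb =>
      obtain ⟨j, rfl⟩ := hb
      intro a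
      have h : a * G.y j = aeval G.y (X j : MvPolynomial (Fin n) ℂ) * a := by
        rw [aeval_X, mul_comm]
      rw [h, G.countC_apply, G.count_cf_aeval, map_mul, eval_X, Pi.zero_apply, zero_mul]
    | zero => intro a; rw [mul_zero]; exact map_zero _
    | add b c _ _ hb hc => intro a; rw [mul_add, map_add, hb, hc, add_zero]
    | smul a b _ hb => intro c; rw [smul_eq_mul, ← mul_assoc]; exact hb _
  have := key 1
  rwa [one_mul] at this

/-- The coordinates on `B / (y)`. -/
noncomputable def Germ.countQ (i : Fin d) : (B ⧸ Ideal.span (Set.range G.y)) →ₗ[ℂ] ℂ :=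
  Submodule.liftQ ((Ideal.span (Set.range G.y)).restrictScalars ℂ) (G.countC i)
    (fun _ hb => G.countC_zero i hb)

theorem Germ.countQ_mk (i : Fin d) (b : B) :
    G.countQ i (Ideal.Quotient.mk (Ideal.span (Set.range G.y)) b) = eval 0 (G.cf b i) := rfl

theorem Germ.count_lc (b : B) :
    ∑ i, eval 0 (G.cf b i) • (Ideal.Quotient.mk (Ideal.span (Set.range G.y)) (G.e i)) =
      Ideal.Quotient.mk (Ideal.span (Set.range G.y)) b := by
  conv_rhs => rw [G.cf_spec b, map_sum]
  refine Finset.sum_congr rfl fun i _ => ?_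
  rw [map_mul, Algebra.smul_def]
  congr 1
  symm
  rw [← Ideal.Quotient.mk_algebraMap, Ideal.Quotient.eq]
  exact sep_aeval_sub G.y _

/-- The basis `e` of `B / (y)`. -/
noncomputable def Germ.countB : Module.Basis (Fin d) ℂ (B ⧸ Ideal.span (Set.range G.y)) :=
  Module.Basis.ofEquivFun
    { toFun := fun a i => G.countQ i a
      map_add' := fun a b => by ext i; simp
      map_smul' := fun a b => by ext i; simp
      invFun := fun f => ∑ i, f i • (Ideal.Quotient.mk (Ideal.span (Set.range G.y)) (G.e i))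
      left_inv := fun a => by
        obtain ⟨b, rfl⟩ := Ideal.Quotient.mk_surjective a
        exact G.count_lc b
      right_inv := fun f => by
        classical
        ext i
        simp only [map_sum, map_smul, G.countQ_mk, G.count_cf_e]
        rw [Finset.sum_eq_single i]
        · simp
        · intro j _ hj
          simp [Ne.symm hj]
        · simp }

theorem Germ.countB_repr (a : B ⧸ Ideal.span (Set.range G.y)) (i : Fin d) :
    G.countB.repr a i = G.countQ i a := rfl

theorem Germ.countB_apply (i : Fin d) :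
    G.countB i = Ideal.Quotient.mk (Ideal.span (Set.range G.y)) (G.e i) := by
  classical
  unfold Germ.countB
  rw [Module.Basis.coe_ofEquivFun]
  change ∑ j, (Pi.single i (1 : ℂ) : Fin d → ℂ) j • _ = _
  rw [Finset.sum_eq_single i]
  · simp
  · intro j _ hj
    simp [hj]
  · simp

theorem Germ.count_trace (s : B) :
    LinearMap.trace ℂ _ (LinearMap.mulLeft ℂ (Ideal.Quotient.mk (Ideal.span (Set.range G.y)) s)) =
      eval (0 : Fin n → ℂ) (∑ k, G.cf (s * G.e k) k) := by
  classical
  rw [LinearMap.trace_eq_matrix_trace ℂ G.countB, Matrix.trace, map_sum]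
  refine Finset.sum_congr rfl fun i _ => ?_
  rw [Matrix.diag_apply, LinearMap.toMatrix_apply, LinearMap.mulLeft_apply, G.countB_apply,
    ← map_mul, G.countB_repr, G.countQ_mk]

end

section

variable {n d : ℕ} {B : Type} [CommRing B] [Algebra ℂ B] {G : Germ n d B} {x : Pt B} {sg : B}

theorem IsSep.count_idem (h : IsSep G x 1 sg) :
    sg ^ 2 - sg ∈ Ideal.span (Set.range G.y) := by
  have := h.idem
  rwa [pow_one] at this

/-- An element which does not vanish at `x` is a unit modulo `(y)` near `x`. -/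
theorem IsSep.count_inv (h : IsSep G x 1 sg) {t : B} (ht : x t ≠ 0) :
    ∃ u : B, sg - t * u * sg ∈ Ideal.span (Set.range G.y) := by
  set c : B := algebraMap ℂ B (x t)⁻¹ with hc
  have h1 : x (1 - c * t) = 0 := by
    rw [map_sub, map_one, map_mul, hc, AlgHom.commutes, Algebra.algebraMap_self_apply,
      inv_mul_cancel₀ ht, sub_self]
  obtain ⟨L, hL⟩ := h.nil _ h1
  obtain ⟨v, hv⟩ : (c * t) ∣ 1 - (1 - c * t) ^ L := by
    have h2 : (1 : B) - (1 - c * t) ∣ 1 ^ L - (1 - c * t) ^ L := sub_dvd_pow_sub_pow _ _ _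
    rwa [one_pow, sub_sub_cancel] at h2
  refine ⟨c * v, ?_⟩
  have h3 : sg - t * (c * v) * sg = (1 - c * t) ^ L * sg := by
    have : t * (c * v) = 1 - (1 - c * t) ^ L := by rw [hv]; ring
    rw [this]; ring
  rw [h3]
  exact hL

/-- The map `B / (y) → B_x / (y)`. -/
noncomputable def countPsi (G : Germ n d B) (x : Pt B) :
    (B ⧸ Ideal.span (Set.range G.y)) →ₐ[ℂ]
      (Localization.AtPrime (RingHom.ker x) ⧸ paramIdeal (RingHom.ker x) G.y) :=
  Ideal.Quotient.liftₐ _ ((Ideal.Quotient.mkₐ ℂ (paramIdeal (RingHom.ker x) G.y)).comp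
    (IsScalarTower.toAlgHom ℂ B (Localization.AtPrime (RingHom.ker x)))) (by
      intro a ha
      rw [AlgHom.comp_apply]
      exact Ideal.Quotient.eq_zero_iff_mem.2 (Ideal.mem_map_of_mem _ ha))

theorem countPsi_mk (b : B) :
    countPsi G x (Ideal.Quotient.mk _ b) = Ideal.Quotient.mk _
      (algebraMap B (Localization.AtPrime (RingHom.ker x)) b) := rfl

theorem IsSep.count_psi_sg (h : IsSep G x 1 sg) :
    countPsi G x (Ideal.Quotient.mk _ sg) = 1 := by
  set φ := countPsi G x (Ideal.Quotient.mk _ sg) with hφ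
  have h1 : φ * φ = φ := by
    rw [hφ, ← map_mul, ← map_mul]
    congr 1
    rw [Ideal.Quotient.eq]
    have := h.count_idem
    rwa [pow_two] at this
  have h2 : IsUnit φ := by
    rw [hφ, countPsi_mk]
    refine IsUnit.map _ ?_
    refine IsLocalization.map_units (Localization.AtPrime (RingHom.ker x))
      (⟨sg, ?_⟩ : (RingHom.ker x).primeCompl)
    intro h3
    have h4 : x sg = 0 := h3
    rw [h.x_sg] at h4
    exact one_ne_zero h4
  exact h2.mul_left_cancel (by rw [h1, mul_one])

theorem IsSep.count_psi_surj (h : IsSep G x 1 sg) :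
    Function.Surjective (countPsi G x) := by
  intro z
  obtain ⟨z, rfl⟩ := Ideal.Quotient.mk_surjective z
  obtain ⟨b, t, rfl⟩ := IsLocalization.exists_mk'_eq (RingHom.ker x).primeCompl z
  have ht : x t.1 ≠ 0 := fun h0 => t.2 h0
  obtain ⟨u, hu⟩ := h.count_inv ht
  have h1 : countPsi G x (Ideal.Quotient.mk _ (t.1 : B)) * countPsi G x (Ideal.Quotient.mk _ u)
      = 1 := by
    have h2 : countPsi G x (Ideal.Quotient.mk _ sg) =
        countPsi G x (Ideal.Quotient.mk _ (t.1 * u * sg)) := by
      congr 1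
      exact Ideal.Quotient.eq.2 hu
    rw [map_mul, map_mul, map_mul, map_mul, h.count_psi_sg, mul_one] at h2
    exact h2.symm
  refine ⟨Ideal.Quotient.mk _ (b * u), ?_⟩
  have h3 : IsUnit (countPsi G x (Ideal.Quotient.mk _ (t.1 : B))) := IsUnit.of_mul_eq_one _ h1
  apply h3.mul_left_cancel
  rw [map_mul, map_mul, mul_left_comm, h1, mul_one, countPsi_mk, countPsi_mk, ← map_mul]
  congr 1
  exact (IsLocalization.mk'_spec' _ _ _).symm

theorem IsSep.count_psi_ker (h : IsSep G x 1 sg) :
    LinearMap.ker (countPsi G x).toLinearMap = LinearMap.ker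
      (LinearMap.mulLeft ℂ (Ideal.Quotient.mk (Ideal.span (Set.range G.y)) sg)) := by
  ext a
  rw [LinearMap.mem_ker, LinearMap.mem_ker, AlgHom.toLinearMap_apply, LinearMap.mulLeft_apply]
  constructor
  · intro ha
    obtain ⟨b, rfl⟩ := Ideal.Quotient.mk_surjective a
    rw [countPsi_mk, Ideal.Quotient.eq_zero_iff_mem] at ha
    rw [← map_mul, Ideal.Quotient.eq_zero_iff_mem]
    rw [paramIdeal, IsLocalization.algebraMap_mem_map_algebraMap_iff
      (RingHom.ker x).primeCompl] at ha
    obtain ⟨t, ht, htb⟩ := ha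
    obtain ⟨u, hu⟩ := h.count_inv (t := t) (fun h0 => ht h0)
    have h1 : sg * b = (sg - t * u * sg) * b + (u * sg) * (t * b) := by ring
    rw [h1]
    exact Ideal.add_mem _ (Ideal.mul_mem_right _ _ hu) (Ideal.mul_mem_left _ _ htb)
  · intro ha
    have h1 := congrArg (countPsi G x) ha
    rwa [map_mul, h.count_psi_sg, one_mul, map_zero] at h1

end

/-- The trace of the idempotent of the local ring `B_x / (y)`. -/
theorem IsSep.trace {n d : ℕ} {B : Type} [CommRing B] [IsDomain B] [Algebra ℂ B]
    {G : Germ n d B} {x : Pt B} {sg : B} (h : IsSep G x 1 sg) :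
    eval (0 : Fin n → ℂ) (∑ k, G.cf (sg * G.e k) k) =
      (paramLength ℂ (RingHom.ker x) G.y : ℂ) := by
  have := G.sep_finite
  rw [← G.count_trace]
  set P := LinearMap.mulLeft ℂ (Ideal.Quotient.mk (Ideal.span (Set.range G.y)) sg) with hP
  have hidem : IsIdempotentElem P := by
    have h0 : (Ideal.Quotient.mk (Ideal.span (Set.range G.y)) sg) *
        (Ideal.Quotient.mk (Ideal.span (Set.range G.y)) sg) =
        Ideal.Quotient.mk (Ideal.span (Set.range G.y)) sg := by
      rw [← map_mul, Ideal.Quotient.eq, ← pow_two]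
      exact h.count_idem
    refine LinearMap.ext fun a => ?_
    rw [hP, Module.End.mul_apply, LinearMap.mulLeft_apply, LinearMap.mulLeft_apply, ← mul_assoc,
      h0]
  rw [(LinearMap.IsIdempotentElem.isProj_range P hidem).trace]
  congr 1
  rw [paramLength]
  have h1 := P.quotKerEquivRange.finrank_eq
  have h2 := ((countPsi G x).toLinearMap.quotKerEquivOfSurjective h.count_psi_surj).finrank_eq
  rw [← h1, ← h2, h.count_psi_ker]

end Pool.Agent.Odp2
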