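import Pool.Agent.Odp2.Defs

open scoped ContDiff Topology ENNReal NNReal WithZero nonZeroDivisors
open Set MeasureTheory Filter MvPolynomial Pool.Agent.ODP

namespace Pool.Agent.Odp2

theorem germ_discr_ne_zero {A B : Type} [CommRing A] [IsDomain A] [CharZero A] [CommRing B]
    [IsDomain B] [Algebra A B] {ι : Type} [Fintype ι] [DecidableEq ι] (b : Module.Basis ι A B) :
    Algebra.discr A b ≠ 0 := by
  have hfin : Module.Finite A B := Module.Finite.of_basis b
  have hfree : Module.Free A B := Module.Free.of_basis b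
  have hinj0 : Function.Injective (algebraMap A B) := FaithfulSMul.algebraMap_injective A B
  let F := FractionRing A
  let K := FractionRing B
  have hABK : IsScalarTower A B K := inferInstance
  have hinj : FaithfulSMul A K := by
    rw [faithfulSMul_iff_algebraMap_injective, IsScalarTower.algebraMap_eq A B K]
    exact (IsFractionRing.injective B K).comp hinj0
  let : Algebra F K := FractionRing.liftAlgebra A K
  have hAFK : IsScalarTower A F K := FractionRing.isScalarTower_liftAlgebra _ _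
  have hloc : IsLocalization (Algebra.algebraMapSubmonoid B A⁰) K := inferInstance
  have hfd : FiniteDimensional F K := Module.Finite.of_isLocalization A B A⁰
  have hcF : CharZero F := charZero_of_injective_algebraMap (IsFractionRing.injective A F)
  have h1 := Algebra.discr_localizationLocalization A (M := A⁰) (Rₘ := F) K b
  have h2 := Algebra.discr_not_zero_of_basis F (b.localizationLocalization F A⁰ K)
  intro h3
  rw [h1, h3, map_zero] at h2
  exact h2 rfl

/-- coordinates with respect to a basis over the polynomial ring -/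
structure GermCf (n d : ℕ) (B : Type) [CommRing B] [Algebra ℂ B] where
  y : Fin n → B
  e : Fin d → B
  cf : B → Fin d → MvPolynomial (Fin n) ℂ
  cf_spec : ∀ b, b = ∑ i, MvPolynomial.aeval y (cf b i) * e i
  cf_unique : ∀ (b : B) (c : Fin d → MvPolynomial (Fin n) ℂ),
    b = ∑ i, MvPolynomial.aeval y (c i) * e i → c = cf b

namespace GermCf

variable {n d : ℕ} {B : Type} [CommRing B] [Algebra ℂ B] (G : GermCf n d B)

theorem cf_add (a b : B) : G.cf (a + b) = G.cf a + G.cf b := by
  symm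
  apply G.cf_unique
  conv_lhs => rw [G.cf_spec a, G.cf_spec b]
  simp only [Pi.add_apply, map_add, add_mul, Finset.sum_add_distrib]

theorem cf_mul (p : MvPolynomial (Fin n) ℂ) (b : B) (i : Fin d) :
    G.cf (aeval G.y p * b) i = p * G.cf b i := by
  have h : (fun i => p * G.cf b i) = G.cf (aeval G.y p * b) := by
    apply G.cf_unique
    conv_lhs => rw [G.cf_spec b]
    rw [Finset.mul_sum]
    refine Finset.sum_congr rfl fun i _ => ?_
    rw [map_mul, mul_assoc]
  exact (congrFun h i).symm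

theorem cf_zero (i : Fin d) : G.cf 0 i = 0 := by
  have h := G.cf_mul 0 0 i
  rwa [map_zero, zero_mul, zero_mul] at h

theorem cf_e (i : Fin d) : G.cf (G.e i) = fun j => if i = j then 1 else 0 := by
  symm
  apply G.cf_unique
  rw [Finset.sum_eq_single i]
  · rw [if_pos rfl, map_one, one_mul]
  · intro j _ hj
    rw [if_neg (Ne.symm hj), map_zero, zero_mul]
  · intro h
    exact absurd (Finset.mem_univ i) h

/-- the coordinates at the point `w`, as a linear map -/
noncomputable def cw (w : Fin n → ℂ) : B →ₗ[ℂ] (Fin d → ℂ) where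
  toFun b i := eval w (G.cf b i)
  map_add' a b := by
    funext i
    rw [G.cf_add, Pi.add_apply, map_add]
    rfl
  map_smul' c b := by
    funext i
    have h : c • b = aeval G.y (C c : MvPolynomial (Fin n) ℂ) * b := by
      rw [aeval_C, Algebra.smul_def]
    rw [h, G.cf_mul, map_mul, eval_C]
    rfl

theorem cw_apply (w : Fin n → ℂ) (b : B) (i : Fin d) : G.cw w b i = eval w (G.cf b i) := rfl

theorem cw_mul (w : Fin n → ℂ) (p : MvPolynomial (Fin n) ℂ) (b : B) :
    G.cw w (aeval G.y p * b) = eval w p • G.cw w b := by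
  funext i
  rw [cw_apply, G.cf_mul, map_mul]
  rfl

theorem cw_e (w : Fin n → ℂ) (i : Fin d) : G.cw w (G.e i) = Pi.single i 1 := by
  funext j
  rw [cw_apply, G.cf_e]
  rcases eq_or_ne i j with h | h
  · subst h
    simp
  · simp only [if_neg h, map_zero, Pi.single_eq_of_ne (Ne.symm h)]

/-- the ideal of the fibre over `w` -/
def I (w : Fin n → ℂ) : Ideal B := Ideal.span (Set.range fun j => G.y j - algebraMap ℂ B (w j))

theorem aeval_sub_mem (w : Fin n → ℂ) (p : MvPolynomial (Fin n) ℂ) :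
    aeval G.y p - algebraMap ℂ B (eval w p) ∈ G.I w := by
  rw [← Ideal.Quotient.eq]
  have h : ((Ideal.Quotient.mkₐ ℂ (G.I w)).comp (aeval G.y : MvPolynomial (Fin n) ℂ →ₐ[ℂ] B)) =
      (Algebra.ofId ℂ (B ⧸ G.I w)).comp (aeval w) := by
    apply MvPolynomial.algHom_ext
    intro j
    rw [AlgHom.comp_apply, AlgHom.comp_apply, aeval_X, aeval_X]
    change Ideal.Quotient.mk (G.I w) (G.y j) = Ideal.Quotient.mk (G.I w) (algebraMap ℂ B (w j))
    rw [Ideal.Quotient.eq]
    exact Ideal.subset_span ⟨j, rfl⟩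
  have h2 := DFunLike.congr_fun h p
  rw [AlgHom.comp_apply, AlgHom.comp_apply] at h2
  have h3 : (aeval w p : ℂ) = eval w p := by
    rw [← MvPolynomial.coe_aeval_eq_eval]
    rfl
  rw [h3] at h2
  exact h2

theorem sub_mem (w : Fin n → ℂ) (b : B) :
    b - ∑ i, G.cw w b i • G.e i ∈ G.I w := by
  have h : b - ∑ i, G.cw w b i • G.e i =
      ∑ i, (aeval G.y (G.cf b i) - algebraMap ℂ B (eval w (G.cf b i))) * G.e i := by
    simp only [sub_mul, Finset.sum_sub_distrib]
    rw [← G.cf_spec b]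
    congr 1
    exact Finset.sum_congr rfl fun i _ => Algebra.smul_def _ _
  rw [h]
  exact Ideal.sum_mem _ fun i _ => Ideal.mul_mem_right _ _ (G.aeval_sub_mem w _)

theorem mem_I (w : Fin n → ℂ) (b : B) : b ∈ G.I w ↔ G.cw w b = 0 := by
  constructor
  · intro h
    obtain ⟨c, rfl⟩ := Ideal.mem_span_range_iff_exists_fun.1 h
    rw [map_sum]
    refine Finset.sum_eq_zero fun j _ => ?_
    have h1 : c j * (G.y j - algebraMap ℂ B (w j)) = aeval G.y (X j : MvPolynomial (Fin n) ℂ) * c j - w j • c j := by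
      rw [aeval_X, Algebra.smul_def]
      ring
    rw [h1, map_sub, G.cw_mul, map_smul, eval_X, sub_self]
  · intro h
    have h1 := G.sub_mem w b
    rw [h] at h1
    simpa using h1

/-- the matrix of the multiplication by `b` at `w` -/
noncomputable def mw (w : Fin n → ℂ) (b : B) : Matrix (Fin d) (Fin d) ℂ :=
  Matrix.of fun i k => G.cw w (b * G.e k) i

theorem cw_mul_left (w : Fin n → ℂ) (a b : B) :
    G.cw w (a * b) = ∑ j, G.cw w b j • G.cw w (a * G.e j) := by
  have h := (G.mem_I w _).1 (Ideal.mul_mem_left _ a (G.sub_mem w b))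
  rw [mul_sub, map_sub, sub_eq_zero] at h
  rw [h, Finset.mul_sum, map_sum]
  refine Finset.sum_congr rfl fun j _ => ?_
  rw [mul_smul_comm, map_smul]

theorem mw_mul (w : Fin n → ℂ) (a b : B) : G.mw w (a * b) = G.mw w a * G.mw w b := by
  ext i k
  rw [Matrix.mul_apply]
  simp only [mw, Matrix.of_apply]
  rw [mul_assoc, G.cw_mul_left w a (b * G.e k)]
  simp only [Finset.sum_apply, Pi.smul_apply, smul_eq_mul]
  exact Finset.sum_congr rfl fun j _ => mul_comm _ _

theorem mw_one (w : Fin n → ℂ) : G.mw w 1 = 1 := by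
  ext i k
  simp only [mw, Matrix.of_apply, one_mul, cw_e, Matrix.one_apply, Pi.single_apply]

theorem mw_pow (w : Fin n → ℂ) (b : B) (N : ℕ) : G.mw w (b ^ N) = G.mw w b ^ N := by
  induction N with
  | zero => rw [pow_zero, pow_zero, mw_one]
  | succ N ih => rw [pow_succ, mw_mul, ih, pow_succ]

theorem mw_of_mem {w : Fin n → ℂ} {b : B} (h : b ∈ G.I w) : G.mw w b = 0 := by
  ext i k
  simp only [mw, Matrix.of_apply, Matrix.zero_apply]
  rw [(G.mem_I w _).1 (Ideal.mul_mem_right _ _ h)]
  rfl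

theorem trace_mw_of_pow_mem {w : Fin n → ℂ} {b : B} {N : ℕ} (h : b ^ N ∈ G.I w) :
    (G.mw w b).trace = 0 := by
  have h1 : IsNilpotent (G.mw w b) := ⟨N, by rw [← mw_pow, G.mw_of_mem h]⟩
  exact (Matrix.isNilpotent_trace_of_isNilpotent h1).eq_zero

/-- the trace form at `w` -/
noncomputable def T (w : Fin n → ℂ) : Matrix (Fin d) (Fin d) ℂ :=
  Matrix.of fun i j => (G.mw w (G.e i * G.e j)).trace

theorem mem_of_pow_mem {w : Fin n → ℂ} (hT : (G.T w).det ≠ 0) {b : B} {N : ℕ}
    (h : b ^ N ∈ G.I w) : b ∈ G.I w := by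
  rw [mem_I]
  apply Matrix.eq_zero_of_vecMul_eq_zero hT
  funext j
  have h1 : (b * G.e j) ^ N ∈ G.I w := by
    rw [mul_pow]
    exact Ideal.mul_mem_right _ _ h
  have h2 := G.trace_mw_of_pow_mem h1
  rw [Pi.zero_apply, ← h2]
  simp only [Matrix.vecMul, dotProduct, T, Matrix.of_apply, Matrix.trace, Matrix.diag, mw]
  rw [show (∑ i, G.cw w b i * ∑ k, G.cw w (G.e i * G.e j * G.e k) k) =
    ∑ k, ∑ i, G.cw w b i * G.cw w (G.e i * G.e j * G.e k) k by
      rw [Finset.sum_comm]
      exact Finset.sum_congr rfl fun i _ => Finset.mul_sum _ _ _]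
  refine Finset.sum_congr rfl fun k _ => ?_
  rw [show b * G.e j * G.e k = (G.e j * G.e k) * b by ring, G.cw_mul_left w (G.e j * G.e k) b]
  simp only [Finset.sum_apply, Pi.smul_apply, smul_eq_mul]
  refine Finset.sum_congr rfl fun i _ => ?_
  rw [show G.e i * G.e j * G.e k = G.e j * G.e k * G.e i by ring]

theorem char_I {w : Fin n → ℂ} {χ : Pt B} (hχ : proj G.y χ = w) {b : B} (h : b ∈ G.I w) :
    χ b = 0 := by
  have h1 : G.I w ≤ RingHom.ker χ := by
    rw [I, Ideal.span_le]
    rintro _ ⟨j, rfl⟩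
    change χ _ = 0
    rw [map_sub, ← hχ]
    simp [proj]
  exact h1 h

theorem char_eq {w : Fin n → ℂ} {χ : Pt B} (hχ : proj G.y χ = w) (b : B) :
    χ b = ∑ i, G.cw w b i * χ (G.e i) := by
  have h := G.char_I hχ (G.sub_mem w b)
  rw [map_sub, sub_eq_zero] at h
  rw [h, map_sum]
  refine Finset.sum_congr rfl fun i _ => ?_
  rw [map_smul, smul_eq_mul]

theorem exists_pow_mem (w : Fin n → ℂ) (b : B) (h : ∀ χ : Pt B, proj G.y χ = w → χ b = 0) :
    ∃ N : ℕ, b ^ N ∈ G.I w := by
  classical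
  by_contra hcon
  have h1 : b ∉ (G.I w).radical := fun h => hcon h
  rw [Ideal.radical_eq_sInf, Submodule.mem_sInf] at h1
  push Not at h1
  obtain ⟨P, ⟨hIP, hP⟩, hbP⟩ := h1
  have hfin : Module.Finite ℂ (B ⧸ P) := by
    refine ⟨⟨Finset.univ.image fun i => Ideal.Quotient.mk P (G.e i), ?_⟩⟩
    rw [eq_top_iff]
    rintro z -
    obtain ⟨b, rfl⟩ := Ideal.Quotient.mk_surjective z
    have h2 : Ideal.Quotient.mk P b = ∑ i, G.cw w b i • Ideal.Quotient.mk P (G.e i) := by
      have h3 := hIP (G.sub_mem w b)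
      rw [← Ideal.Quotient.eq] at h3
      rw [h3, map_sum]
      rfl
    rw [h2]
    refine Submodule.sum_mem _ fun i _ => Submodule.smul_mem _ _ (Submodule.subset_span ?_)
    rw [Finset.coe_image]
    exact ⟨i, Finset.mem_coe.2 (Finset.mem_univ i), rfl⟩
  have hdom : IsDomain (B ⧸ P) := inferInstance
  have hint : Algebra.IsIntegral ℂ (B ⧸ P) := Algebra.IsIntegral.of_finite _ _
  have hbij := IsAlgClosed.algebraMap_bijective_of_isIntegral (k := ℂ) (K := B ⧸ P)
  let E : ℂ ≃ₐ[ℂ] (B ⧸ P) := AlgEquiv.ofBijective (Algebra.ofId ℂ (B ⧸ P)) hbij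
  let χ : Pt B := (E.symm : (B ⧸ P) →ₐ[ℂ] ℂ).comp (Ideal.Quotient.mkₐ ℂ P)
  have hχ : ∀ b, χ b = 0 ↔ b ∈ P := by
    intro b
    change E.symm (Ideal.Quotient.mk P b) = 0 ↔ _
    rw [map_eq_zero_iff _ E.symm.injective, Ideal.Quotient.eq_zero_iff_mem]
  apply hbP
  rw [← hχ]
  apply h
  funext j
  have h3 := (hχ _).2 (hIP (Ideal.subset_span ⟨j, rfl⟩ : G.y j - algebraMap ℂ B (w j) ∈ G.I w))
  rw [map_sub, sub_eq_zero] at h3
  rw [proj, h3, AlgHom.commutes]
  rfl

/-- the fibre over `w` -/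
def Fb (w : Fin n → ℂ) : Set (Pt B) := {χ | proj G.y χ = w}

theorem linInd (w : Fin n → ℂ) :
    LinearIndependent ℂ (fun (χ : G.Fb w) (i : Fin d) => (χ : Pt B) (G.e i)) := by
  have h2 := (linearIndependent_toLinearMap ℂ B ℂ).comp (fun χ : G.Fb w => (χ : Pt B))
    Subtype.val_injective
  let Ψ : (Fin d → ℂ) →ₗ[ℂ] (B →ₗ[ℂ] ℂ) :=
    { toFun := fun r => (∑ i, r i • LinearMap.proj i) ∘ₗ G.cw w
      map_add' := fun r s => by
        ext b
        simp [add_mul, Finset.sum_add_distrib]
      map_smul' := fun c r => by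
        ext b
        simp [mul_assoc, Finset.mul_sum] }
  refine LinearIndependent.of_comp Ψ ?_
  have h3 : (Ψ ∘ fun (χ : G.Fb w) (i : Fin d) => (χ : Pt B) (G.e i)) =
      (AlgHom.toLinearMap : (B →ₐ[ℂ] ℂ) → B →ₗ[ℂ] ℂ) ∘ fun χ : G.Fb w => (χ : Pt B) := by
    funext χ
    ext b
    simp only [Function.comp_apply, Ψ, LinearMap.coe_mk, AddHom.coe_mk, LinearMap.comp_apply,
      LinearMap.sum_apply, LinearMap.smul_apply, LinearMap.proj_apply, smul_eq_mul,
      AlgHom.toLinearMap_apply]
    rw [G.char_eq χ.2 b]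
    exact Finset.sum_congr rfl fun i _ => mul_comm _ _
  rw [h3]
  exact h2

theorem finite_Fb (w : Fin n → ℂ) : Finite (G.Fb w) :=
  (G.linInd w).finite_of_isNoetherian

theorem card_Fb {w : Fin n → ℂ} (hT : (G.T w).det ≠ 0) : Nat.card (G.Fb w) = d := by
  have hfin := G.finite_Fb w
  have := Fintype.ofFinite (G.Fb w)
  rw [Nat.card_eq_fintype_card]
  apply le_antisymm
  · have h := (G.linInd w).fintype_card_le_finrank
    rwa [Module.finrank_fin_fun] at h
  · let Φ : (Fin d → ℂ) →ₗ[ℂ] (G.Fb w → ℂ) :=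
      { toFun := fun c χ => ∑ i, c i * (χ : Pt B) (G.e i)
        map_add' := fun r s => by
          funext b
          simp [add_mul, Finset.sum_add_distrib]
        map_smul' := fun c r => by
          funext b
          simp [mul_assoc, Finset.mul_sum] }
    have hΦ : Function.Injective Φ := by
      rw [← LinearMap.ker_eq_bot, LinearMap.ker_eq_bot']
      intro c hc
      obtain ⟨N, hN⟩ := G.exists_pow_mem w (∑ i, c i • G.e i) (fun χ hχ => by
        have h5 : ∑ i, c i * χ (G.e i) = 0 := congrFun hc ⟨χ, hχ⟩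
        rw [map_sum, ← h5]
        exact Finset.sum_congr rfl fun i _ => by rw [map_smul, smul_eq_mul])
      have h := (G.mem_I w _).1 (G.mem_of_pow_mem hT hN)
      rw [map_sum] at h
      rw [← h]
      funext j
      simp [cw_e, Pi.single_apply]
    have h := LinearMap.finrank_le_finrank_of_injective hΦ
    rwa [Module.finrank_fin_fun, Module.finrank_fintype_fun_eq_card] at h

theorem du_eq {w : Fin n → ℂ} (hT : (G.T w).det ≠ 0) {χ χ' : Pt B} (hχ : proj G.y χ = w)
    (hχ' : proj G.y χ' = w) :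
    (χ = χ' → ∑ i, (∑ k, (G.T w).adjugate i k * χ (G.e k)) * χ' (G.e i) = (G.T w).det) ∧
    (χ ≠ χ' → ∑ i, (∑ k, (G.T w).adjugate i k * χ (G.e k)) * χ' (G.e i) = 0) := by
  classical
  have hfin := G.finite_Fb w
  have := Fintype.ofFinite (G.Fb w)
  have hcard := G.card_Fb hT
  rw [Nat.card_eq_fintype_card] at hcard
  let σ : Fin d ≃ G.Fb w := (Fintype.equivFinOfCardEq hcard).symm
  let P : Matrix (Fin d) (Fin d) ℂ := Matrix.of fun a i => (σ a : Pt B) (G.e i)
  have hP : IsUnit P := by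
    rw [← Matrix.linearIndependent_rows_iff_isUnit]
    exact (G.linInd w).comp σ σ.injective
  have hPdet : IsUnit P.det := (Matrix.isUnit_iff_isUnit_det P).1 hP
  have hmw : ∀ b, P * G.mw w b = Matrix.diagonal (fun a => (σ a : Pt B) b) * P := by
    intro b
    ext a k
    rw [Matrix.mul_apply, Matrix.diagonal_mul]
    simp only [P, mw, Matrix.of_apply]
    rw [← map_mul, G.char_eq (σ a).2 (b * G.e k)]
    exact Finset.sum_congr rfl fun i _ => mul_comm _ _
  have htr : ∀ b, (G.mw w b).trace = ∑ a, (σ a : Pt B) b := by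
    intro b
    have h1 : G.mw w b = P⁻¹ * (Matrix.diagonal (fun a => (σ a : Pt B) b) * P) := by
      rw [← hmw, ← Matrix.mul_assoc, Matrix.nonsing_inv_mul P hPdet, Matrix.one_mul]
    rw [h1, Matrix.trace_mul_comm, Matrix.mul_assoc, Matrix.mul_nonsing_inv P hPdet,
      Matrix.mul_one, Matrix.trace_diagonal]
  have hTP : G.T w = P.transpose * P := by
    ext i j
    rw [Matrix.mul_apply]
    simp only [T, Matrix.of_apply]
    rw [htr]
    exact Finset.sum_congr rfl fun a _ => map_mul _ _ _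
  have hkey : P * (G.T w).adjugate.transpose * P.transpose = (G.T w).det • (1 : Matrix _ _ ℂ) := by
    rw [hTP, Matrix.adjugate_mul_distrib, Matrix.transpose_mul, Matrix.adjugate_transpose,
      Matrix.transpose_transpose, Matrix.det_mul, Matrix.det_transpose]
    rw [← Matrix.mul_assoc, Matrix.mul_adjugate, Matrix.mul_assoc, ← Matrix.transpose_mul,
      Matrix.mul_adjugate]
    simp [smul_smul]
  have hent : ∀ a b, ∑ i, (∑ k, (G.T w).adjugate i k * (σ a : Pt B) (G.e k)) *
      (σ b : Pt B) (G.e i) = (G.T w).det * (1 : Matrix (Fin d) (Fin d) ℂ) a b := by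
    intro a b
    have h := congrFun (congrFun hkey a) b
    rw [Matrix.smul_apply, smul_eq_mul] at h
    rw [← h, Matrix.mul_apply]
    refine Finset.sum_congr rfl fun i _ => ?_
    rw [Matrix.mul_apply, Matrix.transpose_apply]
    congr 1
    exact Finset.sum_congr rfl fun k _ => mul_comm _ _
  obtain ⟨a, ha⟩ := σ.surjective ⟨χ, hχ⟩
  obtain ⟨b, hb⟩ := σ.surjective ⟨χ', hχ'⟩
  have ha' : χ = (σ a : Pt B) := by rw [ha]
  have hb' : χ' = (σ b : Pt B) := by rw [hb]
  rw [ha', hb', hent a b]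
  constructor
  · intro h
    have hab : a = b := σ.injective (Subtype.ext h)
    rw [hab, Matrix.one_apply_eq, mul_one]
  · intro h
    have hab : a ≠ b := fun hab => h (by rw [hab])
    rw [Matrix.one_apply_ne hab, mul_zero]

end GermCf

theorem exists_germ {n : ℕ} {B : Type} [CommRing B] [IsDomain B] [Algebra ℂ B] (y : Fin n → B)
    (hy : IsFiniteFree ℂ y) : ∃ d, 0 < d ∧ ∃ G : Germ n d B, G.y = y := by
  classical
  let : Algebra (MvPolynomial (Fin n) ℂ) B :=
    (MvPolynomial.aeval y : MvPolynomial (Fin n) ℂ →ₐ[ℂ] B).toRingHom.toAlgebra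
  have hfin : Module.Finite (MvPolynomial (Fin n) ℂ) B := hy.1
  have hfree : Module.Free (MvPolynomial (Fin n) ℂ) B := hy.2
  have hsmul : ∀ (p : MvPolynomial (Fin n) ℂ) (x : B), p • x = aeval y p * x :=
    fun p x => Algebra.smul_def p x
  obtain ⟨d, b⟩ : Σ d : ℕ, Module.Basis (Fin d) (MvPolynomial (Fin n) ℂ) B :=
    ⟨_, Module.finBasis _ _⟩
  have hd : 0 < d := by
    rcases Nat.eq_zero_or_pos d with h | h
    · subst h
      have h1 : (1 : B) = 0 := by
        rw [← b.sum_repr (1 : B), Fin.sum_univ_zero]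
      exact absurd h1 one_ne_zero
    · exact h
  have hspec : ∀ x : B, x = ∑ i, aeval y (b.repr x i) * b i := fun x => by
    conv_lhs => rw [← b.sum_repr x]
    exact Finset.sum_congr rfl fun i _ => hsmul _ _
  have huniq : ∀ (x : B) (c : Fin d → MvPolynomial (Fin n) ℂ),
      x = ∑ i, aeval y (c i) * b i → c = fun i => b.repr x i := by
    intro x c hx
    have h1 : x = ∑ i, c i • b i := by
      rw [hx]
      exact Finset.sum_congr rfl fun i _ => (hsmul _ _).symm
    funext i
    rw [h1, b.repr_sum_self]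
  let G0 : GermCf n d B := ⟨y, b, fun x i => b.repr x i, hspec, huniq⟩
  let Tm : Matrix (Fin d) (Fin d) (MvPolynomial (Fin n) ℂ) := Algebra.traceMatrix _ b
  have hD : Tm.det ≠ 0 := germ_discr_ne_zero b
  have htr : ∀ x : B, Algebra.trace (MvPolynomial (Fin n) ℂ) B x = ∑ k, b.repr (x * b k) k := by
    intro x
    rw [Algebra.trace_eq_matrix_trace b]
    simp only [Matrix.trace, Matrix.diag, Algebra.leftMulMatrix_eq_repr_mul]
  have hT : ∀ w, G0.T w = (eval w).mapMatrix Tm := by
    intro w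
    ext i j
    rw [RingHom.mapMatrix_apply, Matrix.map_apply]
    change (G0.mw w (b i * b j)).trace = eval w (Algebra.trace _ _ (b i * b j))
    rw [htr, map_sum]
    rfl
  have hdet : ∀ w, (G0.T w).det = eval w Tm.det := fun w => by
    rw [hT, RingHom.map_det]
  have hadj : ∀ w i k, (G0.T w).adjugate i k = eval w (Tm.adjugate i k) := fun w i k => by
    rw [hT, ← RingHom.map_adjugate]
    rfl
  have hev : ∀ (w : Fin n → ℂ) (χ : Pt B), proj y χ = w → ∀ p : MvPolynomial (Fin n) ℂ,
      χ (aeval y p) = eval w p := by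
    intro w χ hχ p
    have h1 : χ.comp (aeval y : MvPolynomial (Fin n) ℂ →ₐ[ℂ] B) = aeval w := by
      apply MvPolynomial.algHom_ext
      intro j
      rw [AlgHom.comp_apply, aeval_X, aeval_X, ← hχ]
      rfl
    have h2 := DFunLike.congr_fun h1 p
    rw [AlgHom.comp_apply] at h2
    rw [h2, ← MvPolynomial.coe_aeval_eq_eval]
    rfl
  refine ⟨d, hd, ⟨{
    y := y
    e := b
    cf := fun x i => b.repr x i
    cf_spec := hspec
    cf_unique := huniq
    D := Tm.det
    D_ne := hD
    du := fun i => ∑ k, Tm.adjugate i k • b k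
    du_tr := ?_
    card := ?_
    du_spec := ?_ }, rfl⟩⟩
  · intro i j
    rw [← htr, Finset.sum_mul, map_sum]
    have h1 : ∀ k, Algebra.trace (MvPolynomial (Fin n) ℂ) B ((Tm.adjugate i k • b k) * b j) =
        Tm.adjugate i k * Tm k j := by
      intro k
      rw [smul_mul_assoc, map_smul, smul_eq_mul]
      rfl
    rw [Finset.sum_congr rfl fun k _ => h1 k, ← Matrix.mul_apply, Matrix.adjugate_mul,
      Matrix.smul_apply, Matrix.one_apply]
    split_ifs with h
    · rw [smul_eq_mul, mul_one]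
    · rw [smul_zero]
  · intro w hw
    have h1 : (G0.T w).det ≠ 0 := by rwa [hdet]
    exact G0.card_Fb h1
  · intro w hw χ χ' hχ hχ'
    have h1 : (G0.T w).det ≠ 0 := by rwa [hdet]
    have h2 := G0.du_eq h1 hχ hχ'
    have h3 : ∀ i, χ (∑ k, Tm.adjugate i k • b k) =
        ∑ k, (G0.T w).adjugate i k * χ (G0.e k) := by
      intro i
      rw [map_sum]
      refine Finset.sum_congr rfl fun k _ => ?_
      rw [hsmul, map_mul, hev w χ hχ, hadj]
    rw [hdet] at h2
    simp only [h3]
    exact h2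

/-- the discriminant may be enlarged; so we may assume `h ≠ 0` on `D ≠ 0`. -/
theorem Germ.exists_nz {n d : ℕ} {B : Type} [CommRing B] [IsDomain B] [Algebra ℂ B]
    (G : Germ n d B) {h : B} (hh : h ≠ 0) : ∃ G' : Germ n d B, G'.y = G.y ∧
      ∀ χ : Pt B, eval (proj G.y χ) G'.D ≠ 0 → χ h ≠ 0 := by
  classical
  let G0 : GermCf n d B := ⟨G.y, G.e, G.cf, G.cf_spec, G.cf_unique⟩
  have hev : ∀ (w : Fin n → ℂ) (χ : Pt B), proj G.y χ = w → ∀ p : MvPolynomial (Fin n) ℂ,
      χ (aeval G.y p) = eval w p := by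
    intro w χ hχ p
    have h1 : χ.comp (aeval G.y : MvPolynomial (Fin n) ℂ →ₐ[ℂ] B) = aeval w := by
      apply MvPolynomial.algHom_ext
      intro j
      rw [AlgHom.comp_apply, aeval_X, aeval_X, ← hχ]
      rfl
    have h2 := DFunLike.congr_fun h1 p
    rw [AlgHom.comp_apply] at h2
    rw [h2, ← MvPolynomial.coe_aeval_eq_eval]
    rfl
  obtain ⟨N, hN, c, hc⟩ : ∃ N : MvPolynomial (Fin n) ℂ, N ≠ 0 ∧ h ∣ aeval G.y N := by
    let : Algebra (MvPolynomial (Fin n) ℂ) B :=
      (MvPolynomial.aeval G.y : MvPolynomial (Fin n) ℂ →ₐ[ℂ] B).toRingHom.toAlgebra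
    have hfin : Module.Finite (MvPolynomial (Fin n) ℂ) B := by
      refine ⟨⟨Finset.univ.image G.e, ?_⟩⟩
      rw [eq_top_iff]
      rintro b -
      rw [G.cf_spec b]
      refine Submodule.sum_mem _ fun i _ => ?_
      have h1 : aeval G.y (G.cf b i) * G.e i = G.cf b i • G.e i :=
        (Algebra.smul_def (G.cf b i) (G.e i)).symm
      rw [h1]
      refine Submodule.smul_mem _ _ (Submodule.subset_span ?_)
      rw [Finset.coe_image]
      exact ⟨i, Finset.mem_coe.2 (Finset.mem_univ i), rfl⟩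
    have hint : IsIntegral (MvPolynomial (Fin n) ℂ) h := Algebra.IsIntegral.isIntegral h
    exact hint.isAlgebraic.exists_nonzero_dvd (mem_nonZeroDivisors_of_ne_zero hh)
  refine ⟨{ G with
    D := N * G.D
    D_ne := mul_ne_zero hN G.D_ne
    du := fun i => aeval G.y N * G.du i
    du_tr := ?_
    card := ?_
    du_spec := ?_ }, rfl, ?_⟩
  · intro i j
    have h1 : ∀ k, G.cf (aeval G.y N * G.du i * G.e j * G.e k) k =
        N * G.cf (G.du i * G.e j * G.e k) k := by
      intro k
      rw [mul_assoc, mul_assoc, ← mul_assoc (G.du i)]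
      exact G0.cf_mul N _ k
    rw [Finset.sum_congr rfl fun k _ => h1 k, ← Finset.mul_sum, G.du_tr i j]
    split_ifs
    · rfl
    · rw [mul_zero]
  · intro w hw
    rw [map_mul] at hw
    exact G.card w (right_ne_zero_of_mul hw)
  · intro w hw χ χ' hχ hχ'
    rw [map_mul] at hw ⊢
    obtain ⟨h1, h2⟩ := G.du_spec w (right_ne_zero_of_mul hw) χ χ' hχ hχ'
    have h3 : ∑ i, χ (aeval G.y N * G.du i) * χ' (G.e i) =
        eval w N * ∑ i, χ (G.du i) * χ' (G.e i) := by
      rw [Finset.mul_sum]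
      refine Finset.sum_congr rfl fun i _ => ?_
      rw [map_mul, hev w χ hχ, mul_assoc]
    rw [h3]
    exact ⟨fun h => by rw [h1 h], fun h => by rw [h2 h, mul_zero]⟩
  · intro χ hχ h0
    apply hχ
    have h1 := hev _ χ rfl N
    rw [hc, map_mul, h0, zero_mul] at h1
    change eval (proj G.y χ) (N * G.D) = 0
    rw [map_mul, ← h1, zero_mul]

end Pool.Agent.Odp2
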