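import Pool.Agent.Odp2.Defs

open scoped ContDiff Topology ENNReal NNReal WithZero
open Set MeasureTheory Filter MvPolynomial Pool.Agent.ODP

namespace Pool.Agent.Odp2

section

variable {n d : ℕ} {B : Type} [CommRing B] [Algebra ℂ B]

/-- A polynomial in `y` is congruent to its constant coefficient modulo `(y)`. -/
theorem sep_aeval_sub (y : Fin n → B) (p : MvPolynomial (Fin n) ℂ) :
    aeval y p - algebraMap ℂ B (eval 0 p) ∈ Ideal.span (Set.range y) := by
  induction p using MvPolynomial.induction_on with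
  | C a => simp
  | add p q hp hq =>
    have h := Ideal.add_mem _ hp hq
    rw [map_add, map_add, map_add]
    convert h using 1
    ring
  | mul_X p i _ =>
    have h : y i ∈ Ideal.span (Set.range y) := Ideal.subset_span ⟨i, rfl⟩
    rw [map_mul, map_mul, aeval_X, eval_X, Pi.zero_apply, mul_zero, map_zero, sub_zero]
    exact Ideal.mul_mem_left _ _ h

/-- `B / (y)` is a finite-dimensional algebra. -/
theorem Germ.sep_finite (G : Germ n d B) :
    Module.Finite ℂ (B ⧸ Ideal.span (Set.range G.y)) := by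
  classical
  refine Module.Finite.of_surjective
    (Fintype.linearCombination ℂ
      (fun i => Ideal.Quotient.mk (Ideal.span (Set.range G.y)) (G.e i))) ?_
  intro b
  obtain ⟨b, rfl⟩ := Ideal.Quotient.mk_surjective b
  refine ⟨fun i => eval 0 (G.cf b i), ?_⟩
  rw [Fintype.linearCombination_apply]
  conv_rhs => rw [G.cf_spec b, map_sum]
  refine Finset.sum_congr rfl fun i _ => ?_
  rw [map_mul, Algebra.smul_def]
  congr 1
  symm
  rw [← Ideal.Quotient.mk_algebraMap, Ideal.Quotient.eq]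
  exact sep_aeval_sub G.y _

/-- The Nullstellensatz for `B / (y)`. -/
theorem Germ.sep_nil (G : Germ n d B) (c : B) (hc : ∀ χ : Pt B, proj G.y χ = 0 → χ c = 0) :
    ∃ L : ℕ, c ^ L ∈ Ideal.span (Set.range G.y) := by
  by_contra! h
  have h1 : c ∉ (Ideal.span (Set.range G.y)).radical := fun ⟨L, hL⟩ => h L hL
  rw [Ideal.radical_eq_sInf, Ideal.mem_sInf] at h1
  push Not at h1
  obtain ⟨P, ⟨hP, hPp⟩, hcP⟩ := h1
  have := hPp
  have := G.sep_finite
  have : Module.Finite ℂ (B ⧸ P) :=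
    Module.Finite.of_surjective (Ideal.Quotient.factorₐ ℂ hP).toLinearMap
      (Ideal.Quotient.factor_surjective hP)
  have hs : Function.Bijective (algebraMap ℂ (B ⧸ P)) :=
    IsAlgClosed.algebraMap_bijective_of_isIntegral
  let φ : (B ⧸ P) ≃ₐ[ℂ] ℂ := (AlgEquiv.ofBijective (Algebra.ofId ℂ (B ⧸ P)) hs).symm
  let χ : Pt B := φ.toAlgHom.comp (Ideal.Quotient.mkₐ ℂ P)
  have hχ : ∀ b, χ b = 0 ↔ b ∈ P := by
    intro b
    change φ (Ideal.Quotient.mk P b) = 0 ↔ _
    rw [EmbeddingLike.map_eq_zero_iff, Ideal.Quotient.eq_zero_iff_mem]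
  refine hcP ((hχ c).1 (hc χ ?_))
  funext j
  exact (hχ _).2 (hP (Ideal.subset_span ⟨j, rfl⟩))

/-- The set of the points of the fibre over `0` is finite. -/
theorem Germ.sep_fin (G : Germ n d B) : {χ : Pt B | proj G.y χ = 0}.Finite := by
  have := G.sep_finite
  let f : ((B ⧸ Ideal.span (Set.range G.y)) →ₐ[ℂ] ℂ) → Pt B :=
    fun ψ => ψ.comp (Ideal.Quotient.mkₐ ℂ _)
  refine (Set.finite_range f).subset fun χ hχ => ?_
  refine ⟨Ideal.Quotient.liftₐ _ χ fun b hb => ?_, ?_⟩
  · have : Ideal.span (Set.range G.y) ≤ RingHom.ker χ := by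
      rw [Ideal.span_le]
      rintro _ ⟨j, rfl⟩
      exact congrFun hχ j
    exact this hb
  · ext b
    rfl

/-- An element which is `1` at `x` and `0` at the other points of the fibre. -/
theorem Germ.sep_elt (G : Germ n d B) (x : Pt B) :
    ∃ u : B, x u = 1 ∧ ∀ χ : Pt B, proj G.y χ = 0 → χ ≠ x → χ u = 0 := by
  classical
  have h1 : ∀ χ : Pt B, ∃ b : B, χ ≠ x → x b = 1 ∧ χ b = 0 := by
    intro χ
    by_cases h : χ = x
    · exact ⟨0, fun h' => absurd h h'⟩
    · obtain ⟨b, hb⟩ : ∃ b, x b ≠ χ b := by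
        by_contra! h'
        exact h (AlgHom.ext fun b => (h' b).symm)
      refine ⟨(x b - χ b)⁻¹ • (b - algebraMap ℂ B (χ b)), fun _ => ⟨?_, ?_⟩⟩
      · rw [map_smul, map_sub, AlgHom.commutes, Algebra.algebraMap_self_apply, smul_eq_mul]
        exact inv_mul_cancel₀ (sub_ne_zero.2 hb)
      · rw [map_smul, map_sub, AlgHom.commutes, Algebra.algebraMap_self_apply, sub_self,
          smul_zero]
  choose b hb using h1
  have hfin : {χ : Pt B | proj G.y χ = 0 ∧ χ ≠ x}.Finite := G.sep_fin.subset fun χ h => h.1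
  refine ⟨∏ χ ∈ hfin.toFinset, b χ, ?_, ?_⟩
  · rw [map_prod]
    refine Finset.prod_eq_one fun χ hχ => ?_
    rw [Set.Finite.mem_toFinset] at hχ
    exact (hb χ hχ.2).1
  · intro χ hχ hne
    rw [map_prod]
    refine Finset.prod_eq_zero (i := χ) ?_ (hb χ hne).2
    rw [Set.Finite.mem_toFinset]
    exact ⟨hχ, hne⟩

end

/-- The idempotent modulo `(y)^m` at the point `x`. -/
theorem Germ.exists_sep {n d : ℕ} {B : Type} [CommRing B] [IsDomain B] [Algebra ℂ B]
    (G : Germ n d B) (x : Pt B) (hx : proj G.y x = 0) (m : ℕ) : ∃ sg : B, IsSep G x m sg := by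
  obtain ⟨u, hu1, hu0⟩ := G.sep_elt x
  obtain ⟨N, hN⟩ := G.sep_nil (u * (1 - u)) (by
    intro χ hχ
    by_cases h : χ = x
    · rw [h, map_mul, map_sub, map_one, hu1, sub_self, mul_zero]
    · rw [map_mul, hu0 χ hχ h, zero_mul])
  have hcop : IsCoprime u (1 - u) := ⟨1, 1, by ring⟩
  obtain ⟨a, b, hab⟩ := hcop.pow (m := (N + 1) * (m + 1)) (n := (N + 1) * (m + 1))
  have h0 : (N + 1) * (m + 1) ≠ 0 := by positivity
  have hsg : 1 - a * u ^ ((N + 1) * (m + 1)) = b * (1 - u) ^ ((N + 1) * (m + 1)) := by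
    linear_combination -hab
  have hidem : (a * u ^ ((N + 1) * (m + 1))) ^ 2 - a * u ^ ((N + 1) * (m + 1)) ∈
      Ideal.span (Set.range G.y) ^ (m + 1) := by
    have h1 : (a * u ^ ((N + 1) * (m + 1))) ^ 2 - a * u ^ ((N + 1) * (m + 1)) =
        -(a * b) * (((u * (1 - u)) ^ N) ^ (m + 1) * (u * (1 - u)) ^ (m + 1)) := by
      have h2 : (a * u ^ ((N + 1) * (m + 1))) ^ 2 - a * u ^ ((N + 1) * (m + 1)) =
          -(a * u ^ ((N + 1) * (m + 1))) * (1 - a * u ^ ((N + 1) * (m + 1))) := by ring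
      rw [h2, hsg]
      have h3 : (((u * (1 - u)) ^ N) ^ (m + 1) * (u * (1 - u)) ^ (m + 1)) =
          u ^ ((N + 1) * (m + 1)) * (1 - u) ^ ((N + 1) * (m + 1)) := by
        rw [← pow_mul, ← pow_add, ← mul_pow]
        congr 1
        ring
      rw [h3]
      ring
    rw [h1]
    exact Ideal.mul_mem_left _ _ (Ideal.mul_mem_right _ _ (Ideal.pow_mem_pow hN _))
  refine ⟨a * u ^ ((N + 1) * (m + 1)), hx, ?_, Ideal.pow_le_pow_right (Nat.le_succ m) hidem, ?_⟩
  · have h1 := congrArg x hsg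
    rw [map_sub, map_one, map_mul x b, map_pow, map_sub, map_one, hu1, sub_self, zero_pow h0,
      mul_zero, sub_eq_zero] at h1
    exact h1.symm
  · intro c hc
    obtain ⟨L, hL⟩ := G.sep_nil (c * u) (by
      intro χ hχ
      by_cases h : χ = x
      · rw [h, map_mul, hc, zero_mul]
      · rw [map_mul, hu0 χ hχ h, mul_zero])
    have hidem1 : (a * u ^ ((N + 1) * (m + 1))) ^ 2 - a * u ^ ((N + 1) * (m + 1)) ∈
        Ideal.span (Set.range G.y) := by
      have h2 := Ideal.pow_le_pow_right (I := Ideal.span (Set.range G.y))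
        (Nat.succ_le_succ (Nat.zero_le m)) hidem
      rwa [Nat.succ_eq_add_one, zero_add, pow_one] at h2
    set s := a * u ^ ((N + 1) * (m + 1)) with hs
    have hpow : ∀ k : ℕ, s ^ (k + 1) - s ∈ Ideal.span (Set.range G.y) := by
      intro k
      induction k with
      | zero => simp
      | succ k ih =>
        have h3 : s ^ (k + 1 + 1) - s = s * (s ^ (k + 1) - s) + (s ^ 2 - s) := by ring
        rw [h3]
        exact Ideal.add_mem _ (Ideal.mul_mem_left _ _ ih) hidem1
    refine ⟨L + 1, ?_⟩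
    have h4 : c ^ (L + 1) * s = c ^ (L + 1) * s ^ (L + 1) - c ^ (L + 1) * (s ^ (L + 1) - s) := by
      ring
    rw [h4]
    refine Ideal.sub_mem _ ?_ (Ideal.mul_mem_left _ _ (hpow L))
    have h5 : c ^ (L + 1) * s ^ (L + 1) =
        (a * u ^ ((N + 1) * (m + 1) - 1)) ^ (L + 1) * (c * u) * (c * u) ^ L := by
      have h6 : s = a * u ^ ((N + 1) * (m + 1) - 1) * u := by
        rw [hs, mul_assoc, ← pow_succ, Nat.sub_add_cancel (Nat.one_le_iff_ne_zero.2 h0)]
      rw [h6]
      ring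
    rw [h5]
    exact Ideal.mul_mem_left _ _ hL

end Pool.Agent.Odp2
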